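import Pool.Agent.W761.CB.Stm0

/-! # Sums over the decompositions of a configuration in two parts (CB-AD) -/

set_option autoImplicit false

open MeasureTheory
open scoped ENNReal

namespace Pool.Agent.W338.CB

open Pool.Agent.W761.CB

section

variable {X : Type}

theorem ms_cons {N : ℕ} (a : X) (x : Fin N → X) :
    ms (⟨N + 1, Fin.cons a x⟩ : Cf X) = a ::ₘ ms (⟨N, x⟩ : Cf X) := by
  simp [ms, List.ofFn_succ]

theorem ms_cs (a : X) (γ : Cf X) : ms (cs a γ) = a ::ₘ ms γ := ms_cons a γ.2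

/-- sum over the decompositions -/
def asum {R : Type*} [AddCommMonoid R] (h : Multiset X → Multiset X → R) (S : Multiset X) : R :=
  (S.antidiagonal.map fun s => h s.1 s.2).sum

theorem asum_cons {R : Type*} [AddCommMonoid R] (h : Multiset X → Multiset X → R) (a : X)
    (S : Multiset X) :
    asum h (a ::ₘ S) = asum (fun A B => h A (a ::ₘ B) + h (a ::ₘ A) B) S := by
  unfold asum
  rw [Multiset.antidiagonal_cons, Multiset.map_add, Multiset.sum_add, Multiset.map_map,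
    Multiset.map_map, ← Multiset.sum_map_add]
  rfl

variable [MeasurableSpace X] (ν : Measure X) [IsFiniteMeasure ν]

theorem meas_mk (N : ℕ) : Measurable (fun x : Fin N → X => (⟨N, x⟩ : Cf X)) := by
  intro s hs
  exact MeasurableSpace.measurableSet_iInf.1 hs N

theorem lint_cons {N : ℕ} (g : (Fin (N + 1) → X) → ℝ≥0∞) (hg : Measurable g) :
    ∫⁻ x, g x ∂(Measure.pi fun _ => ν) =
      ∫⁻ a, ∫⁻ x : Fin N → X, g (Fin.cons a x) ∂(Measure.pi fun _ => ν) ∂ν := by
  have h := (measurePreserving_piFinSuccAbove (fun _ : Fin (N + 1) => ν) 0).symm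
  rw [← h.lintegral_comp hg]
  refine (lintegral_prod (μ := ν) (ν := Measure.pi fun _ : Fin N => ν)
    (fun z => g ((MeasurableEquiv.piFinSuccAbove (fun _ => X) 0).symm z))
    (hg.comp h.measurable).aemeasurable).trans ?_
  refine lintegral_congr fun a => lintegral_congr fun x => ?_
  congr 1
  exact Fin.insertNth_zero' a x

/-- double integral over sectors -/
noncomputable def II (h : Multiset X → Multiset X → ℝ≥0∞) (k l : ℕ) : ℝ≥0∞ :=
  ∫⁻ y : Fin k → X, ∫⁻ z : Fin l → X, h (ms ⟨k, y⟩) (ms ⟨l, z⟩) ∂(Measure.pi fun _ => ν)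
    ∂(Measure.pi fun _ => ν)

theorem meas_II {P : Type} [MeasurableSpace P] (H : P → Multiset X → Multiset X → ℝ≥0∞)
    (hH : Measurable fun q : P × Cf X × Cf X => H q.1 (ms q.2.1) (ms q.2.2)) (k l : ℕ) :
    (Measurable fun q : P × (Fin k → X) =>
      ∫⁻ z : Fin l → X, H q.1 (ms ⟨k, q.2⟩) (ms ⟨l, z⟩) ∂(Measure.pi fun _ => ν)) ∧
    Measurable fun p : P => II ν (H p) k l := by
  have h1 : Measurable fun q : (P × (Fin k → X)) × (Fin l → X) =>
      H q.1.1 (ms ⟨k, q.1.2⟩) (ms ⟨l, q.2⟩) := by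
    refine hH.comp (f := fun q : (P × (Fin k → X)) × (Fin l → X) =>
      (q.1.1, (⟨k, q.1.2⟩ : Cf X), (⟨l, q.2⟩ : Cf X))) ?_
    refine (measurable_fst.comp measurable_fst).prodMk (Measurable.prodMk ?_ ?_)
    · exact (meas_mk k).comp (measurable_snd.comp measurable_fst)
    · exact (meas_mk l).comp measurable_snd
  have h2 := Measurable.lintegral_prod_right' (ν := Measure.pi fun _ : Fin l => ν) h1
  refine ⟨h2, ?_⟩
  exact Measurable.lintegral_prod_right' (ν := Measure.pi fun _ : Fin k => ν) h2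

theorem II_add {h h' : Multiset X → Multiset X → ℝ≥0∞}
    (mh : Measurable fun p : Cf X × Cf X => h (ms p.1) (ms p.2)) (k l : ℕ) :
    II ν (fun A B => h A B + h' A B) k l = II ν h k l + II ν h' k l := by
  unfold II
  have m1 : ∀ y : Fin k → X, Measurable fun z : Fin l → X => h (ms ⟨k, y⟩) (ms ⟨l, z⟩) :=
    fun y => mh.comp (f := fun z : Fin l → X => ((⟨k, y⟩ : Cf X), (⟨l, z⟩ : Cf X)))
        (measurable_const.prodMk (meas_mk _))
  have m2 := (meas_II ν (P := Unit) (fun _ => h) (mh.comp measurable_snd) k l).1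
  have m3 : Measurable fun y : Fin k → X =>
      ∫⁻ z : Fin l → X, h (ms ⟨k, y⟩) (ms ⟨l, z⟩) ∂(Measure.pi fun _ => ν) :=
    m2.comp (f := fun y : Fin k → X => ((), y)) (measurable_const.prodMk measurable_id)
  rw [← lintegral_add_left m3]
  refine lintegral_congr fun y => ?_
  exact lintegral_add_left (m1 y) _

theorem sector (hMS : S_MS) (N : ℕ) : ∀ h : Multiset X → Multiset X → ℝ≥0∞,
    Measurable (fun p : Cf X × Cf X => h (ms p.1) (ms p.2)) →
    ∫⁻ x : Fin N → X, asum h (ms ⟨N, x⟩) ∂(Measure.pi fun _ => ν) =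
      ∑ ij ∈ Finset.HasAntidiagonal.antidiagonal N, N.choose ij.1 • II ν h ij.1 ij.2 := by
  induction N with
  | zero =>
    intro h hh
    rw [Finset.Nat.antidiagonal_zero, Finset.sum_singleton, Nat.choose_self, one_smul]
    unfold II
    have h1 : ∀ g : (Fin 0 → X) → ℝ≥0∞, ∫⁻ x, g x ∂(Measure.pi fun _ => ν) = g default := by
      intro g
      rw [lintegral_unique, Measure.pi_empty_univ, mul_one]
    rw [h1, h1, h1]
    simp [asum, ms]
  | succ N ih =>
    intro h hh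
    obtain ⟨hcs, -, -, -, -, -, has⟩ := hMS X
    have e1 : Measurable fun x : Fin (N + 1) → X => asum h (ms ⟨N + 1, x⟩) := by
      have h1 := has Unit (fun _ => h) (by
        exact hh.comp measurable_snd)
      exact h1.comp (f := fun x : Fin (N + 1) → X => ((), (⟨N + 1, x⟩ : Cf X)))
        (measurable_const.prodMk (meas_mk (N + 1)))
    have hA : Measurable fun q : X × Cf X × Cf X => h (ms q.2.1) (q.1 ::ₘ ms q.2.2) := by
      have h1 : Measurable fun q : X × Cf X × Cf X => h (ms q.2.1) (ms (cs q.1 q.2.2)) :=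
        hh.comp ((measurable_fst.comp measurable_snd).prodMk
          (hcs.comp (measurable_fst.prodMk (measurable_snd.comp measurable_snd))))
      simpa only [ms_cs] using h1
    have hB : Measurable fun q : X × Cf X × Cf X => h (q.1 ::ₘ ms q.2.1) (ms q.2.2) := by
      have h1 : Measurable fun q : X × Cf X × Cf X => h (ms (cs q.1 q.2.1)) (ms q.2.2) :=
        hh.comp ((hcs.comp (measurable_fst.prodMk (measurable_fst.comp measurable_snd))).prodMk
          (measurable_snd.comp measurable_snd))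
      simpa only [ms_cs] using h1
    have hfix : ∀ (F : X → Multiset X → Multiset X → ℝ≥0∞),
        (Measurable fun q : X × Cf X × Cf X => F q.1 (ms q.2.1) (ms q.2.2)) → ∀ a,
        Measurable fun p : Cf X × Cf X => F a (ms p.1) (ms p.2) := fun F hF a =>
      hF.comp (measurable_const.prodMk measurable_id)
    rw [lint_cons ν _ e1]
    have e2 : ∀ a, ∫⁻ x : Fin N → X, asum h (ms ⟨N + 1, Fin.cons a x⟩) ∂(Measure.pi fun _ => ν) =
        ∑ ij ∈ Finset.HasAntidiagonal.antidiagonal N, N.choose ij.1 •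
          (II ν (fun A B => h A (a ::ₘ B)) ij.1 ij.2 + II ν (fun A B => h (a ::ₘ A) B) ij.1 ij.2) := by
      intro a
      simp_rw [ms_cons, asum_cons]
      rw [ih (fun A B => h A (a ::ₘ B) + h (a ::ₘ A) B)
        ((hfix (fun a A B => h A (a ::ₘ B)) hA a).add (hfix (fun a A B => h (a ::ₘ A) B) hB a))]
      refine Finset.sum_congr rfl fun ij _ => ?_
      rw [II_add ν (hfix (fun a A B => h A (a ::ₘ B)) hA a)]
    simp_rw [e2]
    have mA : ∀ k l, Measurable fun a => II ν (fun A B => h A (a ::ₘ B)) k l := fun k l =>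
      (meas_II ν (fun a A B => h A (a ::ₘ B)) hA k l).2
    have mB : ∀ k l, Measurable fun a => II ν (fun A B => h (a ::ₘ A) B) k l := fun k l =>
      (meas_II ν (fun a A B => h (a ::ₘ A) B) hB k l).2
    have mAB : ∀ ij : ℕ × ℕ, Measurable fun a => N.choose ij.1 •
        (II ν (fun A B => h A (a ::ₘ B)) ij.1 ij.2 + II ν (fun A B => h (a ::ₘ A) B) ij.1 ij.2) :=
      fun ij => ((mA ij.1 ij.2).add (mB ij.1 ij.2)).const_smul (N.choose ij.1)
    rw [lintegral_finsetSum _ fun ij _ => mAB ij]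
    rw [Finset.sum_antidiagonal_choose_succ_nsmul (fun k l => II ν h k l) N,
      ← Finset.sum_add_distrib]
    refine Finset.sum_congr rfl fun ij hij => ?_
    have hch : N.choose ij.2 = N.choose ij.1 :=
      Nat.choose_symm_of_eq_add ((Finset.HasAntidiagonal.mem_antidiagonal.1 hij).symm.trans (add_comm _ _))
    rw [hch, ← smul_add]
    simp_rw [nsmul_eq_mul]
    have mS : Measurable fun a => II ν (fun A B => h A (a ::ₘ B)) ij.1 ij.2 +
        II ν (fun A B => h (a ::ₘ A) B) ij.1 ij.2 := (mA ij.1 ij.2).add (mB ij.1 ij.2)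
    rw [lintegral_const_mul _ mS, lintegral_add_left (mA ij.1 ij.2)]
    congr 2
    · unfold II
      rw [lintegral_lintegral_swap]
      · refine lintegral_congr fun y => ?_
        rw [lint_cons ν (fun z : Fin (ij.2 + 1) → X => h (ms ⟨ij.1, y⟩) (ms ⟨ij.2 + 1, z⟩))]
        · simp_rw [ms_cons]
        · exact hh.comp (f := fun z : Fin (ij.2 + 1) → X =>
            ((⟨ij.1, y⟩ : Cf X), (⟨ij.2 + 1, z⟩ : Cf X))) (measurable_const.prodMk (meas_mk _))
      · exact (meas_II ν (fun a A B => h A (a ::ₘ B)) hA ij.1 ij.2).1.aemeasurable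
    · unfold II
      rw [lint_cons ν (fun y : Fin (ij.1 + 1) → X => ∫⁻ z : Fin ij.2 → X,
        h (ms ⟨ij.1 + 1, y⟩) (ms ⟨ij.2, z⟩) ∂(Measure.pi fun _ => ν))]
      · simp_rw [ms_cons]
      · have m1 := (meas_II ν (P := Unit) (fun _ => h) (hh.comp measurable_snd) (ij.1 + 1) ij.2).1
        exact m1.comp (f := fun y : Fin (ij.1 + 1) → X => ((), y))
          (measurable_const.prodMk measurable_id)

theorem fact_inv (i j : ℕ) : (((i + j).factorial : ℕ) : ℝ≥0∞)⁻¹ * (((i + j).choose i : ℕ) : ℝ≥0∞) =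
    ((i.factorial : ℕ) : ℝ≥0∞)⁻¹ * ((j.factorial : ℕ) : ℝ≥0∞)⁻¹ := by
  have h1 : (((i + j).factorial : ℕ) : ℝ≥0∞) = (((i + j).choose i : ℕ) : ℝ≥0∞) *
      (((i.factorial : ℕ) : ℝ≥0∞) * ((j.factorial : ℕ) : ℝ≥0∞)) := by
    rw [← Nat.choose_mul_factorial_mul_factorial (Nat.le_add_right i j), Nat.add_sub_cancel_left]
    push_cast
    ring
  have hc0 : (((i + j).choose i : ℕ) : ℝ≥0∞) ≠ 0 := by
    rw [Nat.cast_ne_zero]
    exact (Nat.choose_pos (Nat.le_add_right i j)).ne'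
  have hct : (((i + j).choose i : ℕ) : ℝ≥0∞) ≠ ⊤ := ENNReal.natCast_ne_top _
  have hi0 : ((i.factorial : ℕ) : ℝ≥0∞) ≠ 0 := by
    rw [Nat.cast_ne_zero]
    exact i.factorial_ne_zero
  have hit : ((i.factorial : ℕ) : ℝ≥0∞) ≠ ⊤ := ENNReal.natCast_ne_top _
  rw [h1, ENNReal.mul_inv (Or.inl hc0) (Or.inl hct), ENNReal.mul_inv (Or.inl hi0) (Or.inl hit),
    mul_right_comm, ENNReal.inv_mul_cancel hc0 hct, one_mul]

theorem tsum_anti (F : ℕ → ℕ → ℝ≥0∞) :
    ∑' N : ℕ, ∑ ij ∈ Finset.HasAntidiagonal.antidiagonal N, F ij.1 ij.2 = ∑' i, ∑' j, F i j := by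
  rw [← ENNReal.tsum_prod (f := F),
    ← (Finset.HasAntidiagonal.sigmaAntidiagonalEquivProd (A := ℕ)).tsum_eq, ENNReal.tsum_sigma']
  refine tsum_congr fun N => ?_
  rw [← Finset.tsum_subtype (Finset.HasAntidiagonal.antidiagonal N) (fun ij => F ij.1 ij.2)]
  rfl

theorem part1 (hMS : S_MS) (hLAM : S_LAM) (h : Multiset X → Multiset X → ℝ≥0∞)
    (hh : Measurable (fun p : Cf X × Cf X => h (ms p.1) (ms p.2))) :
    ∫⁻ γ, asum h (ms γ) ∂(lam ν) = ∫⁻ γ, ∫⁻ γ', h (ms γ) (ms γ') ∂(lam ν) ∂(lam ν) := by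
  obtain ⟨hsec, hfin, -⟩ := hLAM X ν
  obtain ⟨hcs, -, -, -, -, -, has⟩ := hMS X
  have e1 : Measurable fun γ : Cf X => asum h (ms γ) := by
    have h1 := has Unit (fun _ => h) (hh.comp measurable_snd)
    exact h1.comp (f := fun γ : Cf X => ((), γ)) (measurable_const.prodMk measurable_id)
  rw [hsec _ e1]
  have e2 : ∀ N : ℕ, (N.factorial : ℝ≥0∞)⁻¹ *
      ∫⁻ x : Fin N → X, asum h (ms ⟨N, x⟩) ∂(Measure.pi fun _ => ν) =
      ∑ ij ∈ Finset.HasAntidiagonal.antidiagonal N,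
        ((ij.1.factorial : ℕ) : ℝ≥0∞)⁻¹ * ((ij.2.factorial : ℕ) : ℝ≥0∞)⁻¹ * II ν h ij.1 ij.2 := by
    intro N
    rw [sector ν hMS N h hh, Finset.mul_sum]
    refine Finset.sum_congr rfl fun ij hij => ?_
    have hN := Finset.HasAntidiagonal.mem_antidiagonal.1 hij
    rw [← fact_inv, hN, nsmul_eq_mul, mul_assoc]
  simp_rw [e2]
  rw [tsum_anti fun i j => ((i.factorial : ℕ) : ℝ≥0∞)⁻¹ * ((j.factorial : ℕ) : ℝ≥0∞)⁻¹ * II ν h i j]
  have e3 : Measurable fun γ : Cf X => ∫⁻ γ', h (ms γ) (ms γ') ∂(lam ν) :=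
    Measurable.lintegral_prod_right' hh
  rw [hsec _ e3]
  refine tsum_congr fun k => ?_
  have e4 : ∀ y : Fin k → X, ∫⁻ γ', h (ms ⟨k, y⟩) (ms γ') ∂(lam ν) =
      ∑' l : ℕ, (l.factorial : ℝ≥0∞)⁻¹ *
        ∫⁻ z : Fin l → X, h (ms ⟨k, y⟩) (ms ⟨l, z⟩) ∂(Measure.pi fun _ => ν) := fun y =>
    hsec (fun γ' => h (ms ⟨k, y⟩) (ms γ')) (hh.comp (measurable_const.prodMk measurable_id))
  simp_rw [e4]
  have e5 : ∀ l : ℕ, Measurable fun y : Fin k → X =>
      ∫⁻ z : Fin l → X, h (ms ⟨k, y⟩) (ms ⟨l, z⟩) ∂(Measure.pi fun _ => ν) := fun l =>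
    ((meas_II ν (P := Unit) (fun _ => h) (hh.comp measurable_snd) k l).1).comp
      (f := fun y : Fin k → X => ((), y)) (measurable_const.prodMk measurable_id)
  rw [lintegral_tsum fun l => ((e5 l).const_mul _).aemeasurable, ← ENNReal.tsum_mul_left]
  refine tsum_congr fun l => ?_
  rw [lintegral_const_mul _ (e5 l), ← mul_assoc]
  rfl

theorem enorm_asum_le (h : Multiset X → Multiset X → ℂ) (S : Multiset X) :
    ‖asum h S‖ₑ ≤ asum (fun A B => ‖h A B‖ₑ) S := by
  unfold asum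
  induction S.antidiagonal using Multiset.induction_on with
  | empty => simp
  | cons a s ih =>
    rw [Multiset.map_cons, Multiset.sum_cons, Multiset.map_cons, Multiset.sum_cons]
    exact (enorm_add_le _ _).trans (add_le_add le_rfl ih)

/-- pairs of configurations -/
def Bd (h : Multiset X → Multiset X → ℂ) : Prop :=
  Measurable (fun p : Cf X × Cf X => h (ms p.1) (ms p.2)) ∧
    ∃ C c : ℝ, 0 ≤ C ∧ 0 ≤ c ∧
      ∀ A B, ‖h A B‖ ≤ C * c ^ (Multiset.card A + Multiset.card B)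

theorem fin_dbl (hLAM : S_LAM) (h : Multiset X → Multiset X → ℂ) (hB : Bd h) :
    ∫⁻ γ, ∫⁻ γ', ‖h (ms γ) (ms γ')‖ₑ ∂(lam ν) ∂(lam ν) < ⊤ := by
  obtain ⟨mh, C, c, hC, hc, hb⟩ := hB
  obtain ⟨-, -, hexp, -⟩ := hLAM X ν
  have h1 : ∀ γ γ' : Cf X, ‖h (ms γ) (ms γ')‖ₑ ≤
      ENNReal.ofReal ((C * c ^ Multiset.card (ms γ)) * c ^ Multiset.card (ms γ')) := by
    intro γ γ'
    rw [← ofReal_norm]
    refine ENNReal.ofReal_le_ofReal ((hb _ _).trans (le_of_eq ?_))
    rw [pow_add]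
    ring
  calc ∫⁻ γ, ∫⁻ γ', ‖h (ms γ) (ms γ')‖ₑ ∂(lam ν) ∂(lam ν)
      ≤ ∫⁻ γ, ∫⁻ γ', ENNReal.ofReal ((C * c ^ Multiset.card (ms γ)) * c ^ Multiset.card (ms γ'))
          ∂(lam ν) ∂(lam ν) := lintegral_mono fun γ => lintegral_mono fun γ' => h1 γ γ'
    _ = ∫⁻ γ, ENNReal.ofReal ((C * Real.exp (c * (ν Set.univ).toReal)) *
          c ^ Multiset.card (ms γ)) ∂(lam ν) := by
        refine lintegral_congr fun γ => ?_
        rw [hexp _ c (mul_nonneg hC (pow_nonneg hc _)) hc]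
        congr 1
        ring
    _ = ENNReal.ofReal ((C * Real.exp (c * (ν Set.univ).toReal)) *
          Real.exp (c * (ν Set.univ).toReal)) :=
        hexp _ c (mul_nonneg hC (Real.exp_nonneg _)) hc
    _ < ⊤ := ENNReal.ofReal_lt_top

theorem int_prod (hLAM : S_LAM) (h : Multiset X → Multiset X → ℂ) (hB : Bd h) :
    Integrable (fun p : Cf X × Cf X => h (ms p.1) (ms p.2)) ((lam ν).prod (lam ν)) := by
  have := (hLAM X ν).2.1
  refine ⟨hB.1.aestronglyMeasurable, ?_⟩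
  rw [hasFiniteIntegral_iff_enorm, lintegral_prod _ hB.1.enorm.aemeasurable]
  exact fin_dbl ν hLAM h hB

theorem int_asum (hMS : S_MS) (hLAM : S_LAM) (h : Multiset X → Multiset X → ℂ) (hB : Bd h) :
    Integrable (fun γ => asum h (ms γ)) (lam ν) := by
  obtain ⟨hcs, -, -, -, -, has, -⟩ := hMS X
  have e1 : Measurable fun γ : Cf X => asum h (ms γ) := by
    have h1 := has Unit (fun _ => h) (hB.1.comp measurable_snd)
    exact h1.comp (f := fun γ : Cf X => ((), γ)) (measurable_const.prodMk measurable_id)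
  refine ⟨e1.aestronglyMeasurable, ?_⟩
  rw [hasFiniteIntegral_iff_enorm]
  refine lt_of_le_of_lt (lintegral_mono fun γ => enorm_asum_le h (ms γ)) ?_
  rw [part1 ν hMS hLAM (fun A B => ‖h A B‖ₑ) hB.1.enorm]
  exact fin_dbl ν hLAM h hB

theorem asum_ofReal (f : Multiset X → Multiset X → ℝ) (hf : ∀ A B, 0 ≤ f A B) (S : Multiset X) :
    0 ≤ asum f S ∧ ENNReal.ofReal (asum f S) = asum (fun A B => ENNReal.ofReal (f A B)) S ∧
      asum (fun A B => ((f A B : ℝ) : ℂ)) S = ((asum f S : ℝ) : ℂ) := by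
  unfold asum
  induction S.antidiagonal using Multiset.induction_on with
  | empty => simp
  | cons a s ih =>
    rw [Multiset.map_cons, Multiset.sum_cons, Multiset.map_cons, Multiset.sum_cons,
      Multiset.map_cons, Multiset.sum_cons]
    obtain ⟨h1, h2, h3⟩ := ih
    refine ⟨add_nonneg (hf _ _) h1, ?_, ?_⟩
    · rw [ENNReal.ofReal_add (hf _ _) h1, h2]
    · rw [h3, Complex.ofReal_add]

/-- the identity for `h` -/
def Eqn (h : Multiset X → Multiset X → ℂ) : Prop :=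
  ∫ γ, asum h (ms γ) ∂(lam ν) = ∫ p : Cf X × Cf X, h (ms p.1) (ms p.2) ∂((lam ν).prod (lam ν))

theorem eqn_real (hMS : S_MS) (hLAM : S_LAM) (f : Multiset X → Multiset X → ℝ)
    (hf : ∀ A B, 0 ≤ f A B) (mf : Measurable (fun p : Cf X × Cf X => f (ms p.1) (ms p.2))) :
    Eqn ν (fun A B => ((f A B : ℝ) : ℂ)) := by
  have := (hLAM X ν).2.1
  unfold Eqn
  have ms' : Measurable fun γ : Cf X => asum f (ms γ) := by
    obtain ⟨hcs, -, -, -, -, has, -⟩ := hMS X
    have h1 := has Unit (fun _ A B => ((f A B : ℝ) : ℂ))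
      ((Complex.measurable_ofReal.comp mf).comp measurable_snd)
    have h2 : Measurable fun γ : Cf X => asum (fun A B => ((f A B : ℝ) : ℂ)) (ms γ) :=
      h1.comp (f := fun γ : Cf X => ((), γ)) (measurable_const.prodMk measurable_id)
    have h3 := Complex.measurable_re.comp h2
    have h4 : (Complex.re ∘ fun γ : Cf X => asum (fun A B => ((f A B : ℝ) : ℂ)) (ms γ)) =
        fun γ => asum f (ms γ) := by
      funext γ
      show (asum (fun A B => ((f A B : ℝ) : ℂ)) (ms γ)).re = asum f (ms γ)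
      rw [(asum_ofReal f hf (ms γ)).2.2, Complex.ofReal_re]
    rw [h4] at h3
    exact h3
  have e1 : ∀ γ : Cf X, asum (fun A B => ((f A B : ℝ) : ℂ)) (ms γ) = ((asum f (ms γ) : ℝ) : ℂ) :=
    fun γ => (asum_ofReal f hf (ms γ)).2.2
  simp_rw [e1]
  rw [integral_complex_ofReal, integral_complex_ofReal]
  congr 1
  rw [integral_eq_lintegral_of_nonneg_ae (Filter.Eventually.of_forall fun γ =>
      (asum_ofReal f hf (ms γ)).1) ms'.aestronglyMeasurable,
    integral_eq_lintegral_of_nonneg_ae (Filter.Eventually.of_forall fun p => hf _ _)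
      mf.aestronglyMeasurable]
  congr 1
  have e2 : ∀ γ : Cf X, ENNReal.ofReal (asum f (ms γ)) =
      asum (fun A B => ENNReal.ofReal (f A B)) (ms γ) := fun γ => (asum_ofReal f hf (ms γ)).2.1
  simp_rw [e2]
  rw [part1 ν hMS hLAM (fun A B => ENNReal.ofReal (f A B)) mf.ennreal_ofReal,
    lintegral_prod _ mf.ennreal_ofReal.aemeasurable]

theorem asum_lin (h h' : Multiset X → Multiset X → ℂ) (a b : ℂ) (S : Multiset X) :
    asum (fun A B => a * h A B + b * h' A B) S = a * asum h S + b * asum h' S := by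
  unfold asum
  rw [Multiset.sum_map_add, Multiset.sum_map_mul_left, Multiset.sum_map_mul_left]

theorem eqn_lin (hMS : S_MS) (hLAM : S_LAM) {h h' : Multiset X → Multiset X → ℂ} (hB : Bd h)
    (hB' : Bd h') (a b : ℂ) (e : Eqn ν h) (e' : Eqn ν h') :
    Eqn ν fun A B => a * h A B + b * h' A B := by
  unfold Eqn at *
  simp_rw [asum_lin]
  rw [integral_add ((int_asum ν hMS hLAM h hB).const_mul a)
      ((int_asum ν hMS hLAM h' hB').const_mul b),
    integral_add ((int_prod ν hLAM h hB).const_mul a) ((int_prod ν hLAM h' hB').const_mul b),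
    integral_const_mul, integral_const_mul, integral_const_mul, integral_const_mul, e, e']

theorem bd_lin {h h' : Multiset X → Multiset X → ℂ} (hB : Bd h)
    (hB' : Bd h') (a b : ℂ) : Bd fun A B => a * h A B + b * h' A B := by
  obtain ⟨mh, C, c, hC, hc, hb⟩ := hB
  obtain ⟨mh', C', c', hC', hc', hb'⟩ := hB'
  refine ⟨(mh.const_mul a).add (mh'.const_mul b), ‖a‖ * C + ‖b‖ * C', max c c', by positivity,
    le_max_of_le_left hc, fun A B => ?_⟩
  refine (norm_add_le _ _).trans ?_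
  rw [norm_mul, norm_mul, add_mul, mul_assoc, mul_assoc]
  refine add_le_add (mul_le_mul_of_nonneg_left ((hb A B).trans ?_) (norm_nonneg _))
    (mul_le_mul_of_nonneg_left ((hb' A B).trans ?_) (norm_nonneg _))
  · exact mul_le_mul_of_nonneg_left (pow_le_pow_left₀ hc (le_max_left _ _) _) hC
  · exact mul_le_mul_of_nonneg_left (pow_le_pow_left₀ hc' (le_max_right _ _) _) hC'

theorem bd_part {h : Multiset X → Multiset X → ℂ} (hB : Bd h) (q : ℂ → ℝ) (mq : Measurable q)
    (hq : ∀ z, |q z| ≤ ‖z‖) : Bd fun A B => ((q (h A B) : ℝ) : ℂ) := by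
  obtain ⟨mh, C, c, hC, hc, hb⟩ := hB
  refine ⟨Complex.measurable_ofReal.comp (mq.comp mh), C, c, hC, hc, fun A B => ?_⟩
  rw [Complex.norm_real, Real.norm_eq_abs]
  exact (hq _).trans (hb A B)

theorem eqn_all (hMS : S_MS) (hLAM : S_LAM) (h : Multiset X → Multiset X → ℂ) (hB : Bd h) :
    Eqn ν h := by
  have key : ∀ q : ℂ → ℝ, Measurable q → (∀ z, |q z| ≤ ‖z‖) → (∀ z, 0 ≤ q z) →
      Bd (fun A B => ((q (h A B) : ℝ) : ℂ)) ∧ Eqn ν (fun A B => ((q (h A B) : ℝ) : ℂ)) :=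
    fun q mq hq hq0 => ⟨bd_part hB q mq hq,
      eqn_real ν hMS hLAM (fun A B => q (h A B)) (fun A B => hq0 _) (mq.comp hB.1)⟩
  have a1 : ∀ x : ℝ, |max x 0| ≤ |x| := fun x => by
    rcases le_total x 0 with hx | hx
    · rw [max_eq_right hx, abs_zero]
      exact abs_nonneg x
    · rw [max_eq_left hx]
  obtain ⟨b1, k1⟩ := key (fun z => max z.re 0) (Complex.measurable_re.max measurable_const)
    (fun z => (a1 _).trans (Complex.abs_re_le_norm z)) (fun z => le_max_right _ _)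
  obtain ⟨b2, k2⟩ := key (fun z => max (-z.re) 0) (Complex.measurable_re.neg.max measurable_const)
    (fun z => (a1 _).trans (by rw [abs_neg]; exact Complex.abs_re_le_norm z))
    (fun z => le_max_right _ _)
  obtain ⟨b3, k3⟩ := key (fun z => max z.im 0) (Complex.measurable_im.max measurable_const)
    (fun z => (a1 _).trans (Complex.abs_im_le_norm z)) (fun z => le_max_right _ _)
  obtain ⟨b4, k4⟩ := key (fun z => max (-z.im) 0) (Complex.measurable_im.neg.max measurable_const)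
    (fun z => (a1 _).trans (by rw [abs_neg]; exact Complex.abs_im_le_norm z))
    (fun z => le_max_right _ _)
  have c1 := eqn_lin ν hMS hLAM b1 b2 1 (-1) k1 k2
  have c2 := eqn_lin ν hMS hLAM b3 b4 1 (-1) k3 k4
  have c3 := eqn_lin ν hMS hLAM (bd_lin b1 b2 1 (-1)) (bd_lin b3 b4 1 (-1)) 1 Complex.I c1 c2
  have hx : ∀ x : ℝ, max x 0 - max (-x) 0 = x := fun x => by
    rcases le_total x 0 with hx | hx
    · rw [max_eq_right hx, max_eq_left (neg_nonneg.2 hx)]
      ring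
    · rw [max_eq_left hx, max_eq_right (neg_nonpos.2 hx)]
      ring
  have hz : ∀ z : ℂ, 1 * (1 * ((max z.re 0 : ℝ) : ℂ) + -1 * ((max (-z.re) 0 : ℝ) : ℂ)) +
      Complex.I * (1 * ((max z.im 0 : ℝ) : ℂ) + -1 * ((max (-z.im) 0 : ℝ) : ℂ)) = z := by
    intro z
    have h1 : (1 * ((max z.re 0 : ℝ) : ℂ) + -1 * ((max (-z.re) 0 : ℝ) : ℂ)) = (z.re : ℂ) := by
      rw [one_mul, neg_one_mul, ← sub_eq_add_neg, ← Complex.ofReal_sub, hx]
    have h2 : (1 * ((max z.im 0 : ℝ) : ℂ) + -1 * ((max (-z.im) 0 : ℝ) : ℂ)) = (z.im : ℂ) := by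
      rw [one_mul, neg_one_mul, ← sub_eq_add_neg, ← Complex.ofReal_sub, hx]
    rw [h1, h2, one_mul, mul_comm]
    exact Complex.re_add_im z
  have e : (fun A B => 1 * (1 * ((max (h A B).re 0 : ℝ) : ℂ) + -1 * ((max (-(h A B).re) 0 : ℝ) : ℂ)) +
      Complex.I * (1 * ((max (h A B).im 0 : ℝ) : ℂ) + -1 * ((max (-(h A B).im) 0 : ℝ) : ℂ))) = h := by
    funext A B
    exact hz (h A B)
  rw [e] at c3
  exact c3

end

theorem proof_ad : S_MS → S_LAM → S_AD := by
  intro hMS hLAM X _ ν _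
  refine ⟨fun h hh => part1 ν hMS hLAM h hh, fun h hh hb => ?_⟩
  have := (hLAM X ν).2.1
  refine ⟨int_prod ν hLAM h ⟨hh, hb⟩, int_asum ν hMS hLAM h ⟨hh, hb⟩, ?_⟩
  have h1 := eqn_all ν hMS hLAM h ⟨hh, hb⟩
  unfold Eqn at h1
  rw [integral_prod _ (int_prod ν hLAM h ⟨hh, hb⟩)] at h1
  exact h1

end Pool.Agent.W338.CB
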